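import Mathlib
import Pool.Agent.W555.KS.Defs2

set_option autoImplicit false

namespace Pool.Agent.W386.KS

open Finset MvPolynomial
open Pool.Agent.W555.KS

/-- rows spanning the whole space contain a basis -/
lemma exists_rows {K N m : Type} [Field K] [Fintype N] [Fintype m] [DecidableEq m]
    (B : N → m → K) (hB : Submodule.span K (Set.range B) = ⊤) :
    ∃ i : m → N, (Matrix.of (fun a b => B (i a) b) : Matrix m m K).det ≠ 0 := by
  obtain ⟨f, hf, _, hind⟩ := Submodule.exists_fun_fin_finrank_span_eq K (Set.range B)
  have hfr : Module.finrank K (Submodule.span K (Set.range B)) = Fintype.card m := by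
    rw [hB, finrank_top, Module.finrank_fintype_fun_eq_card]
  let e : m ≃ Fin (Module.finrank K (Submodule.span K (Set.range B))) :=
    (Fintype.equivFin m).trans (finCongr hfr.symm)
  choose i hi using hf
  refine ⟨fun a => i (e a), ?_⟩
  have h2 : LinearIndependent K (f ∘ e) := hind.comp e e.injective
  have h3 : (Matrix.of (fun a b => B (i (e a)) b) : Matrix m m K).row = f ∘ e := by
    funext a
    exact hi (e a)
  have h4 := Matrix.linearIndependent_rows_iff_isUnit.1 (h3 ▸ h2)
  exact ((Matrix.isUnit_iff_isUnit_det _).1 h4).ne_zero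

theorem span : StSpan := by
  classical
  intro ι N m _ _ _ A hA
  obtain ⟨i, hi⟩ := exists_rows (fun (i : N) (j : m) => algebraMap (MvPolynomial ι (ZMod 2))
        (FractionRing (MvPolynomial ι (ZMod 2)))
        (MvPolynomial.map (Int.castRingHom (ZMod 2)) (A i j)))
        (Submodule.eq_top_iff'.2 hA)
  refine ⟨(Matrix.of (fun a b => A (i a) b) : Matrix m m (MvPolynomial ι ℤ)).det, ?_, ?_⟩
  · intro h0
    apply hi
    have h1 := congrArg ((algebraMap (MvPolynomial ι (ZMod 2))
        (FractionRing (MvPolynomial ι (ZMod 2)))).comp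
        (MvPolynomial.map (Int.castRingHom (ZMod 2)))) h0
    rw [RingHom.map_det, map_zero] at h1
    rw [← h1]
    rfl
  · intro k _ c hc w
    have h1 : (Matrix.of (fun a b => aeval c (A (i a) b)) : Matrix m m k).det ≠ 0 := by
      intro h0
      apply hc
      have h2 := RingHom.map_det (aeval c : MvPolynomial ι ℤ →ₐ[ℤ] k).toRingHom
        (Matrix.of (fun a b => A (i a) b) : Matrix m m (MvPolynomial ι ℤ))
      have h3 : (RingHom.mapMatrix (aeval c : MvPolynomial ι ℤ →ₐ[ℤ] k).toRingHom)
        (Matrix.of (fun a b => A (i a) b) : Matrix m m (MvPolynomial ι ℤ)) =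
        (Matrix.of (fun a b => aeval c (A (i a) b)) : Matrix m m k) := by
        ext a b; rfl
      rw [h3, h0] at h2
      exact h2
    have h2 : LinearIndependent k (Matrix.of (fun a b => aeval c (A (i a) b)) : Matrix m m k).row :=
      Matrix.linearIndependent_rows_iff_isUnit.2
        ((Matrix.isUnit_iff_isUnit_det _).2 (isUnit_iff_ne_zero.2 h1))
    have h3 := h2.span_eq_top_of_card_eq_finrank' (by rw [Module.finrank_fintype_fun_eq_card])
    have h4 : w ∈ Submodule.span k (Set.range
        (Matrix.of (fun a b => aeval c (A (i a) b)) : Matrix m m k).row) := by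
      rw [h3]; trivial
    refine Submodule.span_mono ?_ h4
    rintro _ ⟨a, rfl⟩
    exact ⟨i a, rfl⟩

end Pool.Agent.W386.KS
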