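import Mathlib
import Pool.Agent.W555.KS.Defs2

set_option autoImplicit false

namespace Pool.Agent.W386.KS

open Finset
open Pool.Agent.W555.KS

/-- monomials of degree `r` in the variables with index `< n - i` satisfying `P` -/
def TP (n : ℕ) (P : (Fin n →₀ ℕ) → Prop) (i r : ℕ) : Set (Fin n →₀ ℕ) :=
  {m | m.degree = r ∧ (∀ x ∈ m.support, (x : ℕ) + i < n) ∧ P m}

lemma finite_degree (n r : ℕ) : Set.Finite {m : Fin n →₀ ℕ | m.degree = r} := by
  have h : {m : Fin n →₀ ℕ | m.degree = r} ⊆
      (fun f : Fin n → ℕ => Finsupp.equivFunOnFinite.symm f) ''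
        (Set.Icc (0 : Fin n → ℕ) (fun _ => r)) := by
    intro x hx
    refine ⟨fun i => x i, ⟨fun i => Nat.zero_le _, ?_⟩, ?_⟩
    · intro i
      have h1 : x i ≤ x.degree := Finsupp.le_degree i x
      have h2 : x.degree = r := hx
      rw [h2] at h1
      exact h1
    · ext i; rfl
  exact Set.Finite.subset (Set.Finite.image _ (Set.finite_Icc _ _)) h

lemma TP_finite (n : ℕ) (P : (Fin n →₀ ℕ) → Prop) (i r : ℕ) : (TP n P i r).Finite :=
  (finite_degree n r).subset (fun _ hm => hm.1)

lemma TP_rec (n : ℕ) (P : (Fin n →₀ ℕ) → Prop) (i r : ℕ) (y : Fin n) (hy : (y : ℕ) + i + 1 = n)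
    (hP : ∀ m, P (m + Finsupp.single y 1) → P m) :
    (TP n P i (r + 1)).ncard ≤ (TP n P i r).ncard + (TP n P (i + 1) (r + 1)).ncard := by
  have hsub : TP n P i (r + 1) ⊆ (fun m => m + Finsupp.single y 1) '' (TP n P i r) ∪
      TP n P (i + 1) (r + 1) := by
    rintro m ⟨h1, h2, h3⟩
    by_cases h0 : m y = 0
    · right
      refine ⟨h1, ?_, h3⟩
      intro x hx
      have h4 := h2 x hx
      have h5 : x ≠ y := by
        rintro rfl
        exact (Finsupp.mem_support_iff.1 hx) h0
      have h6 : (x : ℕ) ≠ (y : ℕ) := fun h => h5 (Fin.ext h)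
      omega
    · left
      have hle : Finsupp.single y 1 ≤ m := by
        rw [Finsupp.single_le_iff]; omega
      have hm : m - Finsupp.single y 1 + Finsupp.single y 1 = m := tsub_add_cancel_of_le hle
      refine ⟨m - Finsupp.single y 1, ⟨?_, ?_, ?_⟩, hm⟩
      · have := congrArg Finsupp.degree hm
        rw [map_add, Finsupp.degree_single, h1] at this
        omega
      · intro x hx
        apply h2
        rw [Finsupp.mem_support_iff] at hx ⊢
        intro h
        apply hx
        rw [Finsupp.tsub_apply, h]; simp
      · apply hP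
        rw [hm]; exact h3
  calc (TP n P i (r + 1)).ncard
      ≤ ((fun m => m + Finsupp.single y 1) '' (TP n P i r) ∪ TP n P (i + 1) (r + 1)).ncard :=
        Set.ncard_le_ncard hsub
          (((TP_finite n P i r).image _).union (TP_finite n P (i + 1) (r + 1)))
    _ ≤ ((fun m => m + Finsupp.single y 1) '' (TP n P i r)).ncard +
        (TP n P (i + 1) (r + 1)).ncard := Set.ncard_union_le _ _
    _ ≤ _ := Nat.add_le_add_right (Set.ncard_image_le (TP_finite n P i r)) _

lemma TP_zero (n : ℕ) (P : (Fin n →₀ ℕ) → Prop) (i : ℕ) : (TP n P i 0).ncard ≤ 1 := by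
  have : TP n P i 0 ⊆ {0} := by
    rintro m ⟨h1, -, -⟩
    exact (Finsupp.degree_eq_zero_iff m).1 h1
  calc (TP n P i 0).ncard ≤ ({0} : Set (Fin n →₀ ℕ)).ncard :=
        Set.ncard_le_ncard this (Set.finite_singleton _)
    _ = 1 := Set.ncard_singleton _

/-- number of all monomials of degree `r` in `N + 1` variables -/
lemma TP_true (n : ℕ) : ∀ (N i r : ℕ), i + (N + 1) = n →
    (TP n (fun _ => True) i r).ncard ≤ Nat.choose (N + r) r := by
  intro N
  induction N with
  | zero =>
    intro i r hi
    have hn : 0 < n := by omega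
    have : TP n (fun _ => True) i r ⊆ {Finsupp.single ⟨0, hn⟩ r} := by
      rintro m ⟨h1, h2, -⟩
      have h3 : m.support ⊆ {⟨0, hn⟩} := by
        intro x hx
        have := h2 x hx
        rw [Finset.mem_singleton]
        apply Fin.ext
        simp only
        omega
      have h4 : m = Finsupp.single ⟨0, hn⟩ (m ⟨0, hn⟩) := Finsupp.support_subset_singleton.1 h3
      have h5 := congrArg Finsupp.degree h4
      rw [Finsupp.degree_single, h1] at h5
      rw [Set.mem_singleton_iff, h5]
      exact h4
    calc (TP n (fun _ => True) i r).ncard ≤ _ :=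
        Set.ncard_le_ncard this (Set.finite_singleton _)
      _ = 1 := Set.ncard_singleton _
      _ ≤ _ := by simp
  | succ N ih =>
    intro i r hi
    induction r with
    | zero => exact (TP_zero n _ i).trans (by simp)
    | succ r ihr =>
      have h1 := TP_rec n (fun _ => True) i r ⟨n - 1 - i, by omega⟩ (by simp only; omega)
        (fun _ _ => trivial)
      have h2 := ih (i + 1) (r + 1) (by omega)
      calc (TP n (fun _ => True) i (r + 1)).ncard ≤ _ := h1
        _ ≤ Nat.choose (N + 1 + r) r + Nat.choose (N + (r + 1)) (r + 1) := Nat.add_le_add ihr h2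
        _ = Nat.choose (N + 1 + r) r + Nat.choose (N + 1 + r) (r + 1) := by
            rw [show N + (r + 1) = N + 1 + r by ring]
        _ = Nat.choose (N + 1 + r + 1) (r + 1) := (Nat.choose_succ_succ _ _).symm

lemma TP_allowed_base (n d r : ℕ) (hd : d < n) : (TP n (Allowed n d) d r).ncard ≤ Nh n d r := by
  classical
  have hy : n - d - 1 < n := by omega
  set y : Fin n := ⟨n - d - 1, hy⟩ with hydef
  have hfy : (univ : Finset (Fin n)).filter (fun i : Fin n => (i : ℕ) + d + 1 = n) = {y} := by
    ext x
    simp only [Finset.mem_filter, Finset.mem_univ, true_and, Finset.mem_singleton]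
    constructor
    · intro h; apply Fin.ext; rw [hydef]; simp only; omega
    · intro h; rw [h, hydef]; simp only; omega
  have hsum : ∀ m : Fin n →₀ ℕ, (∀ x ∈ m.support, (x : ℕ) + d < n) →
      ∑ i ∈ (univ : Finset (Fin n)).filter (fun i : Fin n => (i : ℕ) + d < n), m i = m.degree := by
    intro m hm
    rw [Finsupp.degree_apply]
    symm
    apply Finset.sum_subset
    · intro x hx
      rw [Finset.mem_filter]
      exact ⟨Finset.mem_univ _, hm x hx⟩
    · intro x _ hx
      exact Finsupp.notMem_support_iff.1 hx
  have hall : ∀ m ∈ TP n (Allowed n d) d r, 2 * r ≤ d + m y := by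
    rintro m ⟨h1, h2, h3⟩
    unfold Allowed at h3
    rw [hsum m h2, hfy, Finset.sum_singleton, h1] at h3
    exact h3
  have hle : ∀ m ∈ TP n (Allowed n d) d r, m y ≤ r := by
    rintro m ⟨h1, h2, h3⟩
    rw [← h1]
    exact Finsupp.le_degree y m
  unfold Nh
  split_ifs with hdr
  · have : TP n (Allowed n d) d r = ∅ := by
      rw [Set.eq_empty_iff_forall_notMem]
      intro m hm
      have := hall m hm
      have := hle m hm
      omega
    rw [this]; simp
  · rcases Nat.lt_or_ge d (2 * r) with h2 | h2
    · have hmin : min r (d - r) = d - r := by omega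
      rw [hmin]
      have hsub : TP n (Allowed n d) d r ⊆ (fun m => m + Finsupp.single y (2 * r - d)) ''
          (TP n (fun _ => True) d (d - r)) := by
        rintro m hm
        have ha := hall m hm
        obtain ⟨h1, h2, h3⟩ := hm
        have hle : Finsupp.single y (2 * r - d) ≤ m := by
          rw [Finsupp.single_le_iff]; omega
        have hm : m - Finsupp.single y (2 * r - d) + Finsupp.single y (2 * r - d) = m :=
          tsub_add_cancel_of_le hle
        refine ⟨m - Finsupp.single y (2 * r - d), ⟨?_, ?_, trivial⟩, hm⟩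
        · have := congrArg Finsupp.degree hm
          rw [map_add, Finsupp.degree_single, h1] at this
          omega
        · intro x hx
          apply h2
          rw [Finsupp.mem_support_iff] at hx ⊢
          intro h
          apply hx
          rw [Finsupp.tsub_apply, h]; simp
      calc (TP n (Allowed n d) d r).ncard ≤ _ :=
            Set.ncard_le_ncard hsub ((TP_finite n _ d (d - r)).image _)
        _ ≤ (TP n (fun _ => True) d (d - r)).ncard := Set.ncard_image_le (TP_finite n _ d (d - r))
        _ ≤ _ := TP_true n (n - d - 1) d (d - r) (by omega)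
    · have hmin : min r (d - r) = r := by omega
      rw [hmin]
      have hsub : TP n (Allowed n d) d r ⊆ TP n (fun _ => True) d r :=
        fun m hm => ⟨hm.1, hm.2.1, trivial⟩
      calc (TP n (Allowed n d) d r).ncard ≤ _ :=
            Set.ncard_le_ncard hsub (TP_finite n _ d r)
        _ ≤ _ := TP_true n (n - d - 1) d r (by omega)

lemma Bd_zero (n d : ℕ) : ∀ a, Bd n d a 0 = 1 := by
  intro a
  induction a with
  | zero => simp [Bd, Nh]
  | succ a ih => rw [Bd, ih]

lemma TP_allowed (n d : ℕ) (hd : d < n) : ∀ (a i r : ℕ), i + a = d →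
    (TP n (Allowed n d) i r).ncard ≤ Bd n d a r := by
  intro a
  induction a with
  | zero =>
    intro i r hi
    have : i = d := by omega
    subst this
    rw [Bd]
    exact TP_allowed_base n i r hd
  | succ a ih =>
    intro i r hi
    induction r with
    | zero =>
      rw [Bd_zero]
      exact TP_zero n _ i
    | succ r ihr =>
      have hy0 : n - 1 - i < n := by omega
      obtain ⟨y, hyv⟩ : ∃ y : Fin n, (y : ℕ) = n - 1 - i := ⟨⟨n - 1 - i, hy0⟩, rfl⟩
      have h1 := TP_rec n (Allowed n d) i r y (by omega) (by
        intro m hm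
        unfold Allowed at hm ⊢
        have e1 : ∀ x ∈ (univ : Finset (Fin n)).filter (fun x : Fin n => (x : ℕ) + d < n),
            (m + Finsupp.single y 1 : Fin n →₀ ℕ) x = m x := by
          intro x hx
          rw [Finset.mem_filter] at hx
          rw [Finsupp.add_apply, Finsupp.single_apply, if_neg, add_zero]
          intro h
          have := congrArg Fin.val h
          omega
        have e2 : ∀ x ∈ (univ : Finset (Fin n)).filter (fun x : Fin n => (x : ℕ) + d + 1 = n),
            (m + Finsupp.single y 1 : Fin n →₀ ℕ) x = m x := by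
          intro x hx
          rw [Finset.mem_filter] at hx
          rw [Finsupp.add_apply, Finsupp.single_apply, if_neg, add_zero]
          intro h
          have := congrArg Fin.val h
          omega
        rw [Finset.sum_congr rfl e1, Finset.sum_congr rfl e2] at hm
        exact hm)
      have h2 := ih (i + 1) (r + 1) (by omega)
      rw [Bd]
      exact h1.trans (Nat.add_le_add ihr h2)

theorem g3 : StG3 := by
  intro n d j hj hd
  have h := TP_allowed n d hd (d - j) j (j + 1) (by omega)
  have he : {m : Fin n →₀ ℕ | m.degree = j + 1 ∧ (∀ i ∈ m.support, (i : ℕ) + (j + 1) ≤ n) ∧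
    Allowed n d m} = TP n (Allowed n d) j (j + 1) := by
    ext m
    unfold TP
    constructor
    · rintro ⟨h1, h2, h3⟩
      exact ⟨h1, fun x hx => by have := h2 x hx; omega, h3⟩
    · rintro ⟨h1, h2, h3⟩
      exact ⟨h1, fun x hx => by have := h2 x hx; omega, h3⟩
  rw [he]
  exact h

end Pool.Agent.W386.KS
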