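import Mathlib
import Pool.Agent.W555.KS.Defs

set_option autoImplicit false

namespace Pool.Agent.W386.KS

open Finset MvPolynomial
open Pool.Agent.W555.KS

/-- a kernel vector of the first `j` rows, supported exactly on `σ` -/
lemma exists_ker (hmin : StMin) (n d j : ℕ) (hj : j ≤ d) (σ : Finset (Fin n))
    (hσ : σ.card = j + 1) :
    ∃ c : Fin n → Kf (d + 1) n, (∀ v ∈ σ, c v ≠ 0) ∧ (∀ v, v ∉ σ → c v = 0) ∧
      ∀ i : Fin (d + 1), (i : ℕ) < j → ∑ v, gen (d + 1) n i v * c v = 0 := by
  classical
  set g : Fin (j + 1) → Fin n := fun l => (σ.orderEmbOfFin hσ l) with hg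
  have hginj : Function.Injective g := (σ.orderEmbOfFin hσ).injective
  have hgmem : ∀ l, g l ∈ σ := fun l => σ.orderEmbOfFin_mem hσ l
  have hgsurj : ∀ v ∈ σ, ∃ l, g l = v := by
    intro v hv
    have := σ.range_orderEmbOfFin hσ
    have h2 : v ∈ Set.range (σ.orderEmbOfFin hσ) := by rw [this]; exact hv
    exact h2
  let f : Fin j → Fin (d + 1) := fun i => ⟨i, by omega⟩
  have hf : Function.Injective f := by
    intro a b hab
    have := congrArg Fin.val hab
    exact Fin.ext this
  let A : Matrix (Fin j) (Fin (j + 1)) (Kf (d + 1) n) :=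
    Matrix.of (fun i l => gen (d + 1) n (f i) (g l))
  have hker : LinearMap.ker A.mulVecLin ≠ ⊥ := by
    apply LinearMap.ker_ne_bot_of_finrank_lt
    simp
  obtain ⟨w, hw, hw0⟩ := (Submodule.ne_bot_iff _).1 hker
  have hAw : A.mulVec w = 0 := by
    simpa using hw
  have hwl : ∀ l, w l ≠ 0 := by
    intro l0 h0
    apply hw0
    let B : Matrix (Fin j) (Fin j) (Kf (d + 1) n) :=
      Matrix.of (fun i l => gen (d + 1) n (f i) ((g ∘ l0.succAbove) l))
    have hB : B.det ≠ 0 := hmin (d + 1) n j f (g ∘ l0.succAbove) hf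
      (hginj.comp Fin.succAbove_right_injective)
    have hBw : B.mulVec (w ∘ l0.succAbove) = 0 := by
      funext i
      have := congrFun hAw i
      simp only [Matrix.mulVec, dotProduct, Pi.zero_apply] at this ⊢
      rw [Fin.sum_univ_succAbove _ l0, h0, mul_zero, zero_add] at this
      exact this
    have hz := Matrix.eq_zero_of_mulVec_eq_zero hB hBw
    funext l
    by_cases hl : l = l0
    · rw [hl]; exact h0
    · obtain ⟨l', rfl⟩ := Fin.exists_succAbove_eq hl
      exact congrFun hz l'
  refine ⟨fun v => ∑ l, if g l = v then w l else 0, ?_, ?_, ?_⟩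
  · intro v hv
    obtain ⟨l, rfl⟩ := hgsurj v hv
    have : (∑ l', if g l' = g l then w l' else 0) = w l := by
      rw [Finset.sum_eq_single l]
      · simp
      · intro b _ hb
        rw [if_neg (fun h => hb (hginj h))]
      · intro h; exact absurd (Finset.mem_univ _) h
    simp only [this]
    exact hwl l
  · intro v hv
    apply Finset.sum_eq_zero
    intro l _
    rw [if_neg]
    intro h
    exact hv (h ▸ hgmem l)
  · intro i hi
    have h1 := congrFun hAw ⟨i, hi⟩
    simp only [Matrix.mulVec, dotProduct, Pi.zero_apply] at h1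
    have h2 : f ⟨(i : ℕ), hi⟩ = i := Fin.ext rfl
    calc ∑ v, gen (d + 1) n i v * (∑ l, if g l = v then w l else 0)
        = ∑ v, ∑ l, (if g l = v then gen (d + 1) n i v * w l else 0) := by
          apply Finset.sum_congr rfl
          intro v _
          rw [Finset.mul_sum]
          apply Finset.sum_congr rfl
          intro l _
          split_ifs <;> simp
      _ = ∑ l, ∑ v, (if g l = v then gen (d + 1) n i v * w l else 0) := Finset.sum_comm
      _ = ∑ l, gen (d + 1) n i (g l) * w l := by
          apply Finset.sum_congr rfl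
          intro l _
          simp
      _ = 0 := by
          rw [← h1]
          apply Finset.sum_congr rfl
          intro l _
          simp only [A, Matrix.of_apply, h2]

/-- the homogeneous polynomials of given degree form a finite dimensional space -/
lemma finite_homog (n r : ℕ) (k : Type) [Field k] :
    Module.Finite k (homogeneousSubmodule (Fin n) k r) := by
  exact Module.Finite.iff_fg.mpr (homogeneousSubmodule_fg (Fin n) k r)

theorem dlow (hmin : StMin) : StDLow := by
  classical
  intro n d j L hL hj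
  set I := Ij n d j L with hI
  set V := Submodule.map (Ideal.Quotient.mkₐ (Kf (d + 1) n) I).toLinearMap
    (homogeneousSubmodule (Fin n) (Kf (d + 1) n) (j + 1)) with hV
  have := finite_homog n (j + 1) (Kf (d + 1) n)
  have : Module.Finite (Kf (d + 1) n) V := by
    rw [hV]; infer_instance
  set F := L.filter (fun σ => σ.card = j + 1) with hF
  have hhom : ∀ σ : Finset (Fin n), σ.card = j + 1 →
      (∏ v ∈ σ, (X v : MvPolynomial (Fin n) (Kf (d + 1) n))).IsHomogeneous (j + 1) := by
    intro σ hσ
    have := MvPolynomial.IsHomogeneous.prod σ (fun v => (X v : MvPolynomial (Fin n) (Kf (d + 1) n)))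
      (fun _ => 1) (fun v _ => isHomogeneous_X _ v)
    simpa [hσ] using this
  let v : F → V := fun σ => ⟨Ideal.Quotient.mkₐ (Kf (d + 1) n) I (∏ v ∈ (σ : Finset (Fin n)), X v),
    ⟨∏ v ∈ (σ : Finset (Fin n)), X v, by
      have h := (Finset.mem_filter.1 σ.2).2
      exact hhom _ h, rfl⟩⟩
  have hlin : LinearIndependent (Kf (d + 1) n) v := by
    rw [linearIndependent_iff']
    intro s b hb σ hσs
    have hσF := σ.2
    obtain ⟨hσL, hσc⟩ := Finset.mem_filter.1 hσF
    obtain ⟨c, hc1, hc2, hc3⟩ := exists_ker hmin n d j hj σ hσc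
    -- evaluation kills the ideal
    have hkill : ∀ p ∈ I, MvPolynomial.eval c p = 0 := by
      intro p hp
      have hle : I ≤ RingHom.ker (MvPolynomial.eval c) := by
        rw [hI]
        unfold Ij srI
        refine sup_le ?_ ?_
        · rw [Ideal.span_le]
          rintro _ ⟨τ, hτ, rfl⟩
          have hns : ¬ τ ⊆ (σ : Finset (Fin n)) := fun h => hτ (hL.2 _ hσL _ h)
          obtain ⟨u, hu, hu2⟩ := Finset.not_subset.1 hns
          simp only [SetLike.mem_coe, RingHom.mem_ker, map_prod, eval_X]
          exact Finset.prod_eq_zero hu (hc2 u hu2)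
        · rw [Ideal.span_le]
          rintro _ ⟨i, hi, rfl⟩
          simp only [SetLike.mem_coe, RingHom.mem_ker, lf, map_sum, map_mul, eval_C, eval_X]
          exact hc3 i hi
      exact hle hp
    have hb2 : (∑ τ ∈ s, b τ • (∏ v ∈ (τ : Finset (Fin n)), (X v :
        MvPolynomial (Fin n) (Kf (d + 1) n)))) ∈ I := by
      rw [← Ideal.Quotient.eq_zero_iff_mem]
      have h3 := congrArg (fun z : V => (z : (MvPolynomial (Fin n) (Kf (d + 1) n)) ⧸ I)) hb
      simp only [Submodule.coe_sum, Submodule.coe_smul, v, ZeroMemClass.coe_zero] at h3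
      have h4 : (Ideal.Quotient.mkₐ (Kf (d + 1) n) I) (∑ τ ∈ s, b τ • (∏ v ∈ (τ : Finset (Fin n)),
        (X v : MvPolynomial (Fin n) (Kf (d + 1) n)))) = 0 := by
        rw [map_sum]
        simp only [map_smul]
        exact h3
      exact h4
    have h5 := hkill _ hb2
    rw [map_sum, Finset.sum_eq_single σ] at h5
    · rw [smul_eval, map_prod] at h5
      simp only [eval_X] at h5
      rcases mul_eq_zero.1 h5 with h6 | h6
      · exact h6
      · exact absurd h6 (Finset.prod_ne_zero_iff.2 hc1)
    · intro τ _ hτσ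
      have hτc := (Finset.mem_filter.1 τ.2).2
      have hns : ¬ (τ : Finset (Fin n)) ⊆ (σ : Finset (Fin n)) := by
        intro h
        exact hτσ (Subtype.ext (Finset.eq_of_subset_of_card_le h (by rw [hτc, hσc])))
      obtain ⟨u, hu, hu2⟩ := Finset.not_subset.1 hns
      rw [smul_eval, map_prod]
      simp only [eval_X]
      rw [Finset.prod_eq_zero hu (hc2 u hu2), mul_zero]
    · intro h; exact absurd hσs h
  have := hlin.fintype_card_le_finrank
  rw [Fintype.card_coe] at this
  exact this

end Pool.Agent.W386.KS
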