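import Mathlib
import Pool.Agent.W555.KS.Defs

set_option autoImplicit false

namespace Pool.Agent.W386.KS

open Finset Polynomial
open Pool.Agent.W555.KS

lemma prod_sign_pos (A : Finset ℕ) (f : ℕ → ℝ) (p : ℕ → Prop) [DecidablePred p]
    (h1 : ∀ s ∈ A, p s → f s < 0) (h2 : ∀ s ∈ A, ¬ p s → 0 < f s) :
    0 < (∏ s ∈ A, f s) * (-1 : ℝ) ^ (A.filter p).card := by
  have : (-1 : ℝ) ^ (A.filter p).card = ∏ s ∈ A, (if p s then (-1 : ℝ) else 1) := by
    rw [Finset.prod_ite]
    simp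
  rw [this, ← Finset.prod_mul_distrib]
  apply Finset.prod_pos
  intro s hs
  by_cases hp : p s
  · have := h1 s hs hp
    simp only [hp, if_true]
    linarith
  · have := h2 s hs hp
    simp only [hp, if_false]
    linarith

theorem supp : StSupp := by
  intro n d S ⟨T, ε, hcard, hG⟩
  set A : Finset ℕ := S.image (fun i : Fin n => (i : ℕ)) with hA
  let Q : ℝ[X] := C (-(-1 : ℝ) ^ ε) * ((∏ s ∈ A, (C (s : ℝ) - X)) *
    (∏ g ∈ T, (C ((g : ℝ) - 1 / 2) - X)))
  have hdeg1 : ∀ a : ℝ, (C a - X : ℝ[X]).natDegree ≤ 1 := by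
    intro a
    have := natDegree_sub_le (C a) (X : ℝ[X])
    simpa using this
  have hdeg : Q.natDegree ≤ d := by
    refine (natDegree_C_mul_le _ _).trans ?_
    refine (natDegree_mul_le).trans ?_
    refine le_trans (add_le_add (natDegree_prod_le _ _) (natDegree_prod_le _ _)) ?_
    refine le_trans (add_le_add (Finset.sum_le_card_nsmul _ _ 1 (fun s _ => hdeg1 _))
      (Finset.sum_le_card_nsmul _ _ 1 (fun s _ => hdeg1 _))) ?_
    simpa using hcard
  have heval : ∀ t : ℝ, Q.eval t = Q.coeff 0 + ∑ j : Fin d, Q.coeff ((j : ℕ) + 1) *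
      t ^ ((j : ℕ) + 1) := by
    intro t
    rw [eval_eq_sum_range' (Nat.lt_succ_of_le hdeg), Finset.sum_range_succ']
    rw [Finset.sum_range (fun i => Q.coeff (i + 1) * t ^ (i + 1))]
    simp [add_comm]
  have hval : ∀ t : ℝ, Q.eval t = -(-1 : ℝ) ^ ε * ((∏ s ∈ A, ((s : ℝ) - t)) *
      (∏ g ∈ T, ((g : ℝ) - 1 / 2 - t))) := by
    intro t
    simp only [Q, eval_mul, eval_C, eval_prod, eval_sub, eval_X]
  refine ⟨fun j => Q.coeff ((j : ℕ) + 1), -Q.coeff 0, ?_, ?_⟩
  · intro i hi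
    have h0 : Q.eval (((i : ℕ) : ℝ)) = 0 := by
      rw [hval]
      have : ∏ s ∈ A, ((s : ℝ) - ((i : ℕ) : ℝ)) = 0 := by
        apply Finset.prod_eq_zero (i := (i : ℕ))
        · rw [hA]; exact Finset.mem_image_of_mem _ hi
        · simp
      rw [this]; ring
    rw [heval] at h0
    linarith
  · intro i hi
    have hiA : (i : ℕ) ∉ A := by
      rw [hA, Finset.mem_image]
      rintro ⟨j, hj, hji⟩
      exact hi (Fin.ext hji ▸ hj)
    have hE := hG i i.2 hiA
    have p1 := prod_sign_pos A (fun s => (s : ℝ) - ((i : ℕ) : ℝ)) (fun s => s < (i : ℕ))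
      (by
        intro s _ h
        have : (s : ℝ) < ((i : ℕ) : ℝ) := by exact_mod_cast h
        linarith)
      (by
        intro s hs h
        have h3 : (i : ℕ) < s := by
          rcases lt_or_eq_of_le (not_lt.mp h) with h | h
          · exact h
          · exact absurd (h ▸ hs) hiA
        have : ((i : ℕ) : ℝ) < (s : ℝ) := by exact_mod_cast h3
        linarith)
    have p2 := prod_sign_pos T (fun g => (g : ℝ) - 1 / 2 - ((i : ℕ) : ℝ)) (fun g => g ≤ (i : ℕ))
      (by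
        intro s _ h
        have : (s : ℝ) ≤ ((i : ℕ) : ℝ) := by exact_mod_cast h
        linarith)
      (by
        intro s _ h
        have : ((i : ℕ) : ℝ) + 1 ≤ (s : ℝ) := by
          have := Nat.succ_le_of_lt (not_le.mp h)
          exact_mod_cast this
        linarith)
    have p3 := mul_pos p1 p2
    have hsq : (-1 : ℝ) ^ ε * ((-1 : ℝ) ^ (A.filter (fun s => s < (i : ℕ))).card *
        (-1 : ℝ) ^ (T.filter (fun g => g ≤ (i : ℕ))).card) = 1 := by
      rw [← pow_add, ← pow_add, ← add_assoc]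
      exact hE.neg_one_pow
    have hsq2 : (-1 : ℝ) ^ ε * (-1 : ℝ) ^ ε = 1 := by
      rw [← pow_add]; exact Even.neg_one_pow ⟨ε, rfl⟩
    have hlt : Q.eval (((i : ℕ) : ℝ)) < 0 := by
      rw [hval]
      have : (-1 : ℝ) ^ ε = (-1 : ℝ) ^ (A.filter (fun s => s < (i : ℕ))).card *
        (-1 : ℝ) ^ (T.filter (fun g => g ≤ (i : ℕ))).card := by
        calc (-1 : ℝ) ^ ε = (-1 : ℝ) ^ ε * 1 := by ring
          _ = (-1 : ℝ) ^ ε * ((-1 : ℝ) ^ ε * ((-1 : ℝ) ^ (A.filter (fun s => s < (i : ℕ))).card *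
            (-1 : ℝ) ^ (T.filter (fun g => g ≤ (i : ℕ))).card)) := by rw [hsq]
          _ = ((-1 : ℝ) ^ ε * (-1 : ℝ) ^ ε) * ((-1 : ℝ) ^ (A.filter (fun s => s < (i : ℕ))).card *
            (-1 : ℝ) ^ (T.filter (fun g => g ≤ (i : ℕ))).card) := by ring
          _ = _ := by rw [hsq2, one_mul]
      rw [this]
      nlinarith [p3]
    rw [heval] at hlt
    linarith

end Pool.Agent.W386.KS
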